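import Pool.Agent.Lib.MP_a37f0b_ag.Ind

/-!
The question of Nori and Rao for local rings that are filtered colimits of essentially smooth
algebras over a principal ideal domain.
-/

open IsLocalRing Pool.Agent.Lib.MP_a37f0b_ag

theorem Pool.Agent.Lib.MP_a37f0b_ag.Old.indSmooth
    (V : Type) [CommRing V] [IsDomain V] [IsPrincipalIdealRing V]
    (R : Type) [CommRing R] [IsLocalRing R] [Algebra V R]
    (hR : ∀ A : Subalgebra V R, A.FG → ∃ (S : Type) (_ : CommRing S) (_ : Algebra V S)
      (_ : Algebra.EssFiniteType V S) (_ : Algebra.FormallySmooth V S) (g : A →ₐ[V] S)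
      (h : S →ₐ[V] R), h.comp g = A.val)
    [PerfectField ((maximalIdeal R).comap (algebraMap V R)).ResidueField]
    (t : ℕ) (r : Fin t → R) (hm : ∀ i, r i ∈ maximalIdeal R)
    (hr : ∀ a : Fin t → R, ∑ i, a i * r i ∈ maximalIdeal R ^ 2 ⊔
      ((maximalIdeal R).comap (algebraMap V R)).map (algebraMap V R) → ∀ i, a i ∈ maximalIdeal R)
    (v : V) (hv : v ≠ 0)
    (P : Type) [AddCommGroup P] [Module (Localization.Away (algebraMap V R v * ∏ i, r i)) P]
    [Module.Finite (Localization.Away (algebraMap V R v * ∏ i, r i)) P]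
    [Module.Projective (Localization.Away (algebraMap V R v * ∏ i, r i)) P] :
    Module.Free (Localization.Away (algebraMap V R v * ∏ i, r i)) P :=
  (ind_free hR hm hr hv).free P
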